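import Mathlib
import Pool.Agent.Q102.WH.Base

/-!
# MP_1392dc_co: joins of two perfect matchings

For `p, q ≥ 1` let `JM (2p) (2q)` be the join of two perfect matchings, on `2p` and on `2q` vertices. It contains no
wheel on five or more vertices, has `m = 4pq + p + q` edges and spectral radius `1 + 2 √(pq)`. This is larger than
`(1 + √(4m - 3)) / 2`, the bound of Q1 for `k = 2`, exactly when `(p - q)^2 + 1 < 2 (p + q)`. So Q1 is false for
`k = 2`, for at least `x^(3/4) / 32` of the `m ≤ x`.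
-/

set_option autoImplicit false

namespace Pool.Agent.Results.MP_1392dc_co.LargeWheels

open Finset Pool.Agent.Helper951.Defs Pool.Agent.Helper951.Spec Pool.Agent.Helper951.WheelCE
open Pool.Agent.Q102.WH

/-- `G` contains no wheel on `2k+1` or more vertices -/
def WheelFree (k : ℕ) {V : Type} (G : SimpleGraph V) : Prop :=
  ∀ t : ℕ, 2 * k + 1 ≤ t → ¬ (wheel t).IsContained G

/-- the bound of Q1 -/
noncomputable def bound (k m : ℕ) : ℝ := ((k : ℝ) - 1 + Real.sqrt (4 * (m : ℝ) - (k : ℝ) ^ 2 + 1)) / 2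

/-- some graph with `m` edges, without isolated vertices and without wheels on `2k+1` or more vertices exceeds the
bound of Q1 -/
def Exceeds (k m : ℕ) : Prop :=
  ∃ (V : Type) (_ : Fintype V) (G : SimpleGraph V), G.edgeSet.ncard = m ∧ (∀ v, ∃ w, G.Adj v w) ∧
    WheelFree k G ∧ bound k m < specRad G

/-- the statement of Q1 -/
def QOne : Prop := ∀ k : ℕ, 2 ≤ k → ∃ m₀ : ℕ, ∀ m : ℕ, m₀ ≤ m →
  ∀ (V : Type) (_ : Fintype V) (G : SimpleGraph V), G.edgeSet.ncard = m → (∀ v, ∃ w, G.Adj v w) →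
    WheelFree k G → specRad G ≤ bound k m ∧
      (specRad G = bound k m ↔ ∃ s : ℕ, 1 ≤ s ∧ Nonempty (G ≃g splitGraph k s))

theorem wheelFree (s t : ℕ) : WheelFree 2 (JM s t) := fun k hk => JM_free_all s t k hk

theorem props (p q : ℕ) (hp : 1 ≤ p) (hq : 1 ≤ q) :
    (JM (2 * p) (2 * q)).edgeSet.ncard = 4 * p * q + p + q ∧ (∀ v, ∃ w, (JM (2 * p) (2 * q)).Adj v w) := by
  refine ⟨?_, ?_⟩
  · rw [Set.ncard_eq_toFinset_card', ← JM_edges p q]
    rfl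
  · rintro (i | j)
    · exact ⟨Sum.inr ⟨0, by omega⟩, JM_lr _ _⟩
    · exact ⟨Sum.inl ⟨0, by omega⟩, JM_rl _ _⟩

theorem bound_two (m : ℕ) : bound 2 m = (1 + Real.sqrt (4 * (m : ℝ) - 3)) / 2 := by
  unfold bound
  have e1 : ((2 : ℕ) : ℝ) - 1 = 1 := by norm_num
  have e2 : 4 * (m : ℝ) - (((2 : ℕ) : ℝ)) ^ 2 + 1 = 4 * (m : ℝ) - 3 := by
    push_cast
    ring
  rw [e1, e2]

theorem exceeds (p q : ℕ) (hq : 1 ≤ q) (hqp : q ≤ p) (h : (p - q) ^ 2 + 1 < 2 * (p + q)) :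
    Exceeds 2 (4 * p * q + p + q) := by
  have hp : 1 ≤ p := le_trans hq hqp
  refine ⟨_, inferInstance, JM (2 * p) (2 * q), (props p q hp hq).1, (props p q hp hq).2, wheelFree _ _, ?_⟩
  rw [bound_two, JM_specRad p q hp hq]
  exact (bound_lt_iff p q hq hqp).2 h

theorem many (x : ℕ) (hx : 16 ≤ x) : (x : ℝ) ^ (3 / 4 : ℝ) / 32 ≤ ({m | m ≤ x ∧ Exceeds 2 m}.ncard : ℝ) := by
  have h0 := density (fun m => m % 2 = 0 ∧ Exceeds 2 m) (fun s hs x hx => count _ 0 (by omega)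
    (fun p q hq hqp h hpar => ⟨by
      have : 4 * p * q + p + q = 2 * (2 * p * q) + (p + q) := by ring
      omega, exceeds p q hq hqp h⟩) s hs x hx) x hx
  have h1 := density (fun m => m % 2 = 1 ∧ Exceeds 2 m) (fun s hs x hx => count _ 1 le_rfl
    (fun p q hq hqp h hpar => ⟨by
      have : 4 * p * q + p + q = 2 * (2 * p * q) + (p + q) := by ring
      omega, exceeds p q hq hqp h⟩) s hs x hx) x hx
  have hfin : ∀ P : ℕ → Prop, {m | m ≤ x ∧ P m}.Finite := fun P => (Set.finite_Iic x).subset (fun m hm => hm.1)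
  have hdis : Disjoint {m | m ≤ x ∧ m % 2 = 0 ∧ Exceeds 2 m} {m | m ≤ x ∧ m % 2 = 1 ∧ Exceeds 2 m} := by
    rw [Set.disjoint_left]
    rintro m ⟨_, h1, _⟩ ⟨_, h2, _⟩
    omega
  have hcard := Set.ncard_union_eq hdis (hfin _) (hfin _)
  have hle : ({m | m ≤ x ∧ m % 2 = 0 ∧ Exceeds 2 m} ∪ {m | m ≤ x ∧ m % 2 = 1 ∧ Exceeds 2 m}).ncard ≤
      {m | m ≤ x ∧ Exceeds 2 m}.ncard := by
    apply Set.ncard_le_ncard _ (hfin _)
    rintro m (⟨h1, _, h2⟩ | ⟨h1, _, h2⟩)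
    · exact ⟨h1, h2⟩
    · exact ⟨h1, h2⟩
  rw [hcard] at hle
  have hle' : ({m | m ≤ x ∧ m % 2 = 0 ∧ Exceeds 2 m}.ncard : ℝ) +
      ({m | m ≤ x ∧ m % 2 = 1 ∧ Exceeds 2 m}.ncard : ℝ) ≤ ({m | m ≤ x ∧ Exceeds 2 m}.ncard : ℝ) := by
    exact_mod_cast hle
  linarith

/-- **Q1 is false, already for `k = 2`.** -/
theorem result :
    ¬ QOne ∧
    (∀ x : ℕ, 16 ≤ x → (x : ℝ) ^ (3 / 4 : ℝ) / 32 ≤ ({m | m ≤ x ∧ Exceeds 2 m}.ncard : ℝ)) ∧
    (∀ p q : ℕ, 1 ≤ q → q ≤ p →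
      (JM (2 * p) (2 * q)).edgeSet.ncard = 4 * p * q + p + q ∧
      (∀ v, ∃ w, (JM (2 * p) (2 * q)).Adj v w) ∧ WheelFree 2 (JM (2 * p) (2 * q)) ∧
      specRad (JM (2 * p) (2 * q)) = 1 + 2 * Real.sqrt (p * q) ∧
      (bound 2 (4 * p * q + p + q) < specRad (JM (2 * p) (2 * q)) ↔ (p - q) ^ 2 + 1 < 2 * (p + q))) := by
  refine ⟨?_, many, ?_⟩
  · intro h
    obtain ⟨m₀, hm₀⟩ := h 2 le_rfl
    have h1 := exceeds (m₀ + 1) (m₀ + 1) (by omega) le_rfl (by rw [Nat.sub_self]; omega)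
    obtain ⟨V, hV, G, e1, e2, e3, e4⟩ := h1
    have h2 := (hm₀ _ (by nlinarith) V hV G e1 e2 e3).1
    exact absurd h2 (not_le.2 e4)
  · intro p q hq hqp
    have hp : 1 ≤ p := le_trans hq hqp
    refine ⟨(props p q hp hq).1, (props p q hp hq).2, wheelFree _ _, JM_specRad p q hp hq, ?_⟩
    rw [bound_two, JM_specRad p q hp hq]
    exact bound_lt_iff p q hq hqp

end Pool.Agent.Results.MP_1392dc_co.LargeWheels
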